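import Pool.Agent.Q93.FP.Free
import Pool.Agent.Q93.FP.Gauss

/-!
# Frobenius partitions of infinite groups: none of (i), (ii), (iii) holds in general

* (i) and (iii): the free group `F` of rank two. If `N` is the kernel of a homomorphism to a
  torsion-free group, then `N` together with the centralizers of the elements outside `N` is a
  Frobenius partition. Take for `N` the derived subgroup or the kernel of the map to `ℤ` killing one
  generator. For the derived subgroup no member is a complement.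
* (ii): the affine group of the Gaussian integers, with the translations and the stabilizers of
  points; these have order 4 or 2.
-/

namespace Pool.Agent.Results.MP_c23b5e_al.AllThreeFail

open Pool.Agent.Q93.FP

theorem result :
    (∃ (Γ : Type) (_ : Group Γ) (N N' : Subgroup Γ) (𝒜 𝒜' : Set (Subgroup Γ)),
      Infinite Γ ∧ IsFrobeniusPartition N 𝒜 ∧ IsNontrivial N 𝒜 ∧
      IsFrobeniusPartition N' 𝒜' ∧ IsNontrivial N' 𝒜' ∧ N ≠ ⊥ ∧ N' ≠ ⊥ ∧ N ≠ N') ∧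
    (∃ (Γ : Type) (_ : Group Γ) (N : Subgroup Γ) (𝒜 : Set (Subgroup Γ)),
      Infinite Γ ∧ IsFrobeniusPartition N 𝒜 ∧ IsNontrivial N 𝒜 ∧ N ≠ ⊥ ∧
      ∃ A ∈ 𝒜, ∃ B ∈ 𝒜, A ≠ ⊥ ∧ B ≠ ⊥ ∧ ¬ Nonempty (A ≃* B)) ∧
    (∃ (Γ : Type) (_ : Group Γ) (N : Subgroup Γ) (𝒜 : Set (Subgroup Γ)),
      Infinite Γ ∧ IsFrobeniusPartition N 𝒜 ∧ IsNontrivial N 𝒜 ∧ N ≠ ⊥ ∧
      ∀ A ∈ 𝒜, ¬ (N ⊔ A = ⊤ ∧ N ⊓ A = ⊥)) := by
  refine ⟨⟨F, inferInstance, φ₁.ker, φ₂.ker, cents φ₁.ker, cents φ₂.ker, inferInstance, fro1,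
      nontriv ker1_ne_bot gen_not_mem1, fro2, nontriv ker2_ne_bot gen_not_mem2, ker1_ne_bot,
      ker2_ne_bot, ker_ne⟩,
    ⟨Aff, inferInstance, Aff.T, cents Aff.T, inferInstance, Aff.fro, Aff.nontriv, Aff.T_ne_bot,
      Subgroup.centralizer {Aff.ρ}, ⟨Aff.ρ, Aff.ρ_not_mem, rfl⟩,
      Subgroup.centralizer {Aff.σ}, ⟨Aff.σ, Aff.σ_not_mem, rfl⟩,
      Aff.cent_ne_bot Aff.ρ_not_mem, Aff.cent_ne_bot Aff.σ_not_mem, Aff.not_iso⟩,
    ⟨F, inferInstance, φ₁.ker, cents φ₁.ker, inferInstance, fro1,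
      nontriv ker1_ne_bot gen_not_mem1, ker1_ne_bot, fun A hA h => no_complement A hA h.1⟩⟩

end Pool.Agent.Results.MP_c23b5e_al.AllThreeFail
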